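import Pool.Agent.H81.AS.Master
import Pool.Agent.H81.AS.Cheb

/-!
Frequencies of blocks of `r` consecutive prime gaps, from the master theorem.
-/

set_option autoImplicit false

open Finset Filter Topology

namespace Pool.Agent.H16.PP

open Pool.Agent.H81.AS

/-! ### Finite combinatorics -/

/-- partial sums of a block of gaps -/
def psum {r : ℕ} (t : Fin r → ℕ) (j : ℕ) : ℕ := ∑ i ∈ univ.filter (fun i : Fin r => i.val < j), t i

/-- the points `a, a + t_0, a + t_0 + t_1, …` -/
def blk {r : ℕ} (a : ℕ) (t : Fin r → ℕ) : Finset ℕ := (range (r + 1)).image (fun j => a + psum t j)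

lemma card_supersets (S A : Finset ℕ) (k : ℕ) :
    #((S.powersetCard k).filter (fun H => A ⊆ H)) ≤ #S ^ (k - #A) := by
  classical
  calc #((S.powersetCard k).filter (fun H => A ⊆ H)) ≤ #(S.powersetCard (k - #A)) := by
        apply Finset.card_le_card_of_injOn (fun H => H \ A)
        · intro H hH
          rw [Finset.mem_coe, Finset.mem_filter, Finset.mem_powersetCard] at hH
          rw [Finset.mem_coe, Finset.mem_powersetCard]
          refine ⟨Finset.sdiff_subset.trans hH.1.1, ?_⟩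
          rw [Finset.card_sdiff_of_subset hH.2, hH.1.2]
        · intro H hH H' hH' h
          rw [Finset.mem_coe, Finset.mem_filter] at hH hH'
          simp only at h
          rw [← Finset.sdiff_union_of_subset hH.2, h, Finset.sdiff_union_of_subset hH'.2]
    _ = (#S).choose (k - #A) := Finset.card_powersetCard _ _
    _ ≤ #S ^ (k - #A) := Nat.choose_le_pow _ _

/-- the `k`-subsets without a good `(r+1)`-subset -/
lemma card_clean (S : Finset ℕ) (k r : ℕ) (G : Finset (Finset ℕ)) (hG : ∀ A ∈ G, #A = r + 1) :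
    (#S).choose k ≤ #((S.powersetCard k).filter (fun H => ∀ A ∈ G, ¬ A ⊆ H)) +
      #G * #S ^ (k - (r + 1)) := by
  classical
  rw [← Finset.card_powersetCard k S]
  have h1 : S.powersetCard k ⊆ (S.powersetCard k).filter (fun H => ∀ A ∈ G, ¬ A ⊆ H) ∪
      G.biUnion (fun A => (S.powersetCard k).filter (fun H => A ⊆ H)) := by
    intro H hH
    rw [Finset.mem_union]
    by_cases h : ∀ A ∈ G, ¬ A ⊆ H
    · left; exact Finset.mem_filter.mpr ⟨hH, h⟩
    · right
      push Not at h
      obtain ⟨A, hA, hAH⟩ := h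
      exact Finset.mem_biUnion.mpr ⟨A, hA, Finset.mem_filter.mpr ⟨hH, hAH⟩⟩
  refine (Finset.card_le_card h1).trans ((Finset.card_union_le _ _).trans ?_)
  apply Nat.add_le_add_left
  refine Finset.card_biUnion_le.trans ?_
  calc ∑ A ∈ G, #((S.powersetCard k).filter (fun H => A ⊆ H)) ≤ ∑ A ∈ G, #S ^ (k - (r + 1)) := by
        apply Finset.sum_le_sum
        intro A hA
        have := card_supersets S A k
        rwa [hG A hA] at this
    _ = #G * #S ^ (k - (r + 1)) := by rw [Finset.sum_const, smul_eq_mul]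

/-! ### Consecutive primes -/

/-- If at least `r + 1` of the numbers `n + h`, `h ∈ H ⊆ [1, B]`, are primes, and no other `n + h`, `1 ≤ h ≤ B`, is
prime, then the first `r + 1` primes after `n` are of the form `n + h`, `h ∈ H`. -/
lemma first_primes (n B r : ℕ) (H : Finset ℕ) (hHB : H ⊆ Icc 1 B)
    (h1 : r + 1 ≤ #(H.filter (fun h => (n + h).Prime)))
    (h2 : ∀ h ∈ Icc 1 B, (n + h).Prime → h ∈ H) (j : ℕ) (hj : j ≤ r) :
    ∃ h ∈ H, Nat.nth Nat.Prime (Nat.count Nat.Prime (n + 1) + j) = n + h := by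
  classical
  set a := Nat.count Nat.Prime (n + 1) with ha
  have hcount : a + (r + 1) ≤ Nat.count Nat.Prime (n + B + 1) := by
    have e1 : Nat.count Nat.Prime (n + B + 1) = a + Nat.count (fun k => Nat.Prime (n + 1 + k)) B := by
      rw [ha, show n + B + 1 = (n + 1) + B by ring, Nat.count_add]
    rw [e1]
    apply Nat.add_le_add_left
    rw [Nat.count_eq_card_filter_range]
    refine h1.trans ?_
    apply Finset.card_le_card_of_injOn (fun h => h - 1)
    · intro h hh
      rw [Finset.mem_coe, Finset.mem_filter] at hh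
      have h3 := Finset.mem_Icc.mp (hHB hh.1)
      rw [Finset.mem_coe, Finset.mem_filter, Finset.mem_range]
      refine ⟨(by show h - 1 < B; omega), ?_⟩
      show (n + 1 + (h - 1)).Prime
      have : n + 1 + (h - 1) = n + h := by omega
      rw [this]; exact hh.2
    · intro h hh h' hh' heq
      rw [Finset.mem_coe, Finset.mem_filter] at hh hh'
      have h3 := Finset.mem_Icc.mp (hHB hh.1)
      have h4 := Finset.mem_Icc.mp (hHB hh'.1)
      simp only at heq
      omega
  have hlt : Nat.nth Nat.Prime (a + j) < n + B + 1 := Nat.nth_lt_of_lt_count (by omega)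
  have hge : n + 1 ≤ Nat.nth Nat.Prime (a + j) := by
    by_contra hcon
    push Not at hcon
    have h3 : Nat.count Nat.Prime (Nat.nth Nat.Prime (a + j) + 1) ≤ a :=
      Nat.count_monotone Nat.Prime (show Nat.nth Nat.Prime (a + j) + 1 ≤ n + 1 by omega)
    rw [Nat.count_nth_succ_of_infinite Nat.infinite_setOfPred_prime] at h3
    omega
  have hpr : (Nat.nth Nat.Prime (a + j)).Prime := Nat.prime_nth_prime (a + j)
  refine ⟨Nat.nth Nat.Prime (a + j) - n, ?_, by omega⟩
  apply h2
  · rw [Finset.mem_Icc]; omega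
  · have : n + (Nat.nth Nat.Prime (a + j) - n) = Nat.nth Nat.Prime (a + j) := by omega
    rw [this]; exact hpr

lemma nth_lt_nth (a b : ℕ) (h : a < b) : Nat.nth Nat.Prime a < Nat.nth Nat.Prime b :=
  (Nat.nth_lt_nth Nat.infinite_setOfPred_prime).mpr h

lemma psum_succ {r : ℕ} (t : Fin r → ℕ) (j : ℕ) (hj : j < r) : psum t (j + 1) = psum t j + t ⟨j, hj⟩ := by
  unfold psum
  have e1 : univ.filter (fun i : Fin r => i.val < j + 1) =
      insert (⟨j, hj⟩ : Fin r) (univ.filter (fun i : Fin r => i.val < j)) := by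
    ext i
    rw [Finset.mem_filter, Finset.mem_insert, Finset.mem_filter, Fin.ext_iff]
    simp only [Finset.mem_univ, true_and]
    omega
  rw [e1, Finset.sum_insert (by rw [Finset.mem_filter]; simp), add_comm]

lemma psum_lt {r : ℕ} (t : Fin r → ℕ) (ht : ∀ i, 1 ≤ t i) (j j' : ℕ) (h : j < j') (hj' : j' ≤ r) :
    psum t j < psum t j' := by
  induction j' with
  | zero => omega
  | succ j' ih =>
    have h1 := psum_succ t j' (by omega)
    have h2 := ht ⟨j', by omega⟩
    rcases Nat.lt_succ_iff_lt_or_eq.mp h with h3 | h3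
    · have := ih h3 (by omega)
      omega
    · subst h3; omega

lemma card_blk {r : ℕ} (a : ℕ) (t : Fin r → ℕ) (ht : ∀ i, 1 ≤ t i) : #(blk a t) = r + 1 := by
  unfold blk
  rw [Finset.card_image_of_injOn, Finset.card_range]
  intro j hj j' hj' h
  rw [Finset.mem_coe, Finset.mem_range] at hj hj'
  simp only at h
  rcases Nat.lt_trichotomy j j' with h1 | h1 | h1
  · have := psum_lt t ht j j' h1 (by omega); omega
  · exact h1
  · have := psum_lt t ht j' j h1 (by omega); omega

/-- telescoping -/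
lemma nth_psum (r a : ℕ) : ∀ j, j ≤ r → Nat.nth Nat.Prime (a + j) =
    Nat.nth Nat.Prime a + psum (fun i : Fin r => dd (a + i)) j := by
  intro j
  induction j with
  | zero => intro _; simp [psum]
  | succ j ih =>
    intro hj
    have h1 := ih (by omega)
    have h2 : psum (fun i : Fin r => dd (a + i)) (j + 1) =
        psum (fun i : Fin r => dd (a + i)) j + dd (a + j) := by
      unfold psum
      have e1 : univ.filter (fun i : Fin r => i.val < j + 1) =
          insert (⟨j, by omega⟩ : Fin r) (univ.filter (fun i : Fin r => i.val < j)) := by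
        ext i
        rw [Finset.mem_filter, Finset.mem_insert, Finset.mem_filter, Fin.ext_iff]
        simp only [Finset.mem_univ, true_and]
        omega
      rw [e1, Finset.sum_insert (by rw [Finset.mem_filter]; simp), add_comm]
    rw [h2, ← add_assoc (Nat.nth Nat.Prime a), ← h1]
    unfold dd
    have h3 := nth_lt_nth (a + j) (a + j + 1) (by omega)
    have : a + (j + 1) = a + j + 1 := by ring
    rw [this]
    omega

/-! ### The theorem -/

/-- the number of occurrences of a block of gaps among the first `N` -/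
noncomputable def cnt {r : ℕ} (N : ℕ) (t : Fin r → ℕ) : ℕ :=
  #((range N).filter (fun n => ∀ i : Fin r, dd (n + i) = t i))

/-- the blocks of `r` even numbers of sum at most `B` which occur at least `A` times among the first `N` -/
noncomputable def goodBlocks (r N B : ℕ) (A : ℝ) : Finset (Fin r → ℕ) :=
  (Fintype.piFinset (fun _ : Fin r => Icc 1 B)).filter (fun t => (∀ i, Even (t i)) ∧ ∑ i, t i ≤ B ∧
    A ≤ (cnt N t : ℝ))

/-- the core: a finite statement -/
lemma blocks_core (r N B k M : ℕ) (hk : 2 ≤ k) (A : ℝ) (hA : 0 ≤ A) (L : ℕ) (hBL : B ≤ L)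
    (𝒩 : Finset ℕ)
    (h𝒩 : ∀ n ∈ 𝒩, ∃ H : Finset ℕ, (H ⊆ (Icc 1 B).filter (fun h => k.factorial ∣ h) ∧
      ∀ a ∈ H, ∀ t ∈ goodBlocks r N B A, ¬ blk a t ⊆ H) ∧
      r + 1 ≤ #(H.filter (fun h => (n + h).Prime)) ∧ ∀ h ∈ Icc 1 L, (n + h).Prime → h ∈ H)
    (hM : ∀ n ∈ 𝒩, n + L ≤ M) (hMN : Nat.count Nat.Prime (M + 1) ≤ N) :
    (#𝒩 : ℝ) ≤ L * ((B : ℝ) ^ r * A) := by
  classical
  -- the index of the first prime after `n`
  set a : ℕ → ℕ := fun n => Nat.count Nat.Prime (n + 1) with ha
  set Wb : Finset (Fin r → ℕ) := (Fintype.piFinset (fun _ : Fin r => Icc 1 B)).filter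
    (fun t => (cnt N t : ℝ) < A) with hWb
  set Bad : Finset ℕ := (range N).filter (fun m => (fun i : Fin r => dd (m + i)) ∈ Wb) with hBad
  have hcardBad : (#Bad : ℝ) ≤ (B : ℝ) ^ r * A := by
    have h1 : Bad ⊆ Wb.biUnion (fun t => (range N).filter (fun n => ∀ i : Fin r, dd (n + i) = t i)) := by
      intro m hm
      rw [hBad, Finset.mem_filter] at hm
      rw [Finset.mem_biUnion]
      exact ⟨_, hm.2, Finset.mem_filter.mpr ⟨hm.1, fun i => rfl⟩⟩
    have h2 : #Bad ≤ ∑ t ∈ Wb, cnt N t := (Finset.card_le_card h1).trans Finset.card_biUnion_le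
    have h3 : (#Wb : ℝ) ≤ (B : ℝ) ^ r := by
      have h4 : #Wb ≤ B ^ r := by
        refine (Finset.card_filter_le _ _).trans ?_
        rw [Fintype.card_piFinset]
        simp
      exact_mod_cast h4
    calc (#Bad : ℝ) ≤ ∑ t ∈ Wb, (cnt N t : ℝ) := by exact_mod_cast h2
      _ ≤ ∑ t ∈ Wb, A := by
          apply Finset.sum_le_sum
          intro t ht
          rw [hWb, Finset.mem_filter] at ht
          exact ht.2.le
      _ = #Wb * A := by rw [Finset.sum_const, nsmul_eq_mul]
      _ ≤ (B : ℝ) ^ r * A := mul_le_mul_of_nonneg_right h3 hA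
  -- `a` maps `𝒩` to `Bad`, with fibres of size at most `L`
  have hmap : ∀ n ∈ 𝒩, a n ∈ Bad ∧ n < Nat.nth Nat.Prime (a n) ∧ Nat.nth Nat.Prime (a n) ≤ n + L := by
    intro n hn
    obtain ⟨H, ⟨hHS, hHgood⟩, hH1, hH2⟩ := h𝒩 n hn
    have hHL : H ⊆ Icc 1 L := by
      intro h hh
      have := Finset.mem_Icc.mp (Finset.mem_filter.mp (hHS hh)).1
      rw [Finset.mem_Icc]; omega
    have hfp := first_primes n L r H hHL hH1 hH2
    choose! hf hfH hfe using hfp
    have h0 := hfe 0 (by omega)
    have h0H := hfH 0 (by omega)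
    rw [add_zero] at h0
    have h0' := Finset.mem_Icc.mp (hHL h0H)
    refine ⟨?_, ?_, ?_⟩
    · -- the block is Wb
      have hidx : a n < N := by
        have h3 : Nat.nth Nat.Prime (a n) + 1 ≤ M + 1 := by
          have := hM n hn
          simp only [ha] at *
          omega
        have h4 := (Nat.count_monotone Nat.Prime h3).trans hMN
        rw [Nat.count_nth_succ_of_infinite Nat.infinite_setOfPred_prime] at h4
        omega
      -- the gaps
      have hgap : ∀ j, j < r → dd (a n + j) = hf (j + 1) - hf j ∧ hf j < hf (j + 1) := by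
        intro j hj
        have e1 := hfe j (by omega)
        have e2 := hfe (j + 1) (by omega)
        have e3 := nth_lt_nth (a n + j) (a n + j + 1) (by omega)
        unfold dd
        have e4 : a n + (j + 1) = a n + j + 1 := by ring
        simp only [ha] at *
        rw [e4] at e2
        rw [e1, e2] at e3
        rw [e1, e2]
        omega
      have hfdvd : ∀ j, j ≤ r → k.factorial ∣ hf j := fun j hj =>
        (Finset.mem_filter.mp (hHS (hfH j hj))).2
      have hfB : ∀ j, j ≤ r → 1 ≤ hf j ∧ hf j ≤ B := fun j hj =>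
        Finset.mem_Icc.mp (Finset.mem_filter.mp (hHS (hfH j hj))).1
      have hbox : (fun i : Fin r => dd (a n + i)) ∈ Fintype.piFinset (fun _ : Fin r => Icc 1 B) := by
        rw [Fintype.mem_piFinset]
        intro i
        obtain ⟨e1, e2⟩ := hgap i i.isLt
        have e3 := hfB (i + 1) (by omega)
        rw [Finset.mem_Icc, e1]
        omega
      have hps : ∀ j, j ≤ r → hf j = hf 0 + psum (fun i : Fin r => dd (a n + i)) j := by
        intro j hj
        have e1 := nth_psum r (a n) j hj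
        have e2 := hfe j hj
        simp only [ha] at *
        rw [h0, e2] at e1
        omega
      rw [hBad, Finset.mem_filter, Finset.mem_range]
      refine ⟨hidx, ?_⟩
      rw [hWb, Finset.mem_filter]
      refine ⟨hbox, ?_⟩
      by_contra hcon
      push Not at hcon
      have hg : (fun i : Fin r => dd (a n + i)) ∈ goodBlocks r N B A := by
        unfold goodBlocks
        rw [Finset.mem_filter]
        refine ⟨hbox, fun i => ?_, ?_, hcon⟩
        · obtain ⟨e1, e2⟩ := hgap i i.isLt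
          have e3 := hfdvd i (by omega)
          have e4 := hfdvd (i + 1) (by omega)
          have e5 : 2 ∣ k.factorial := Nat.dvd_factorial (by norm_num) hk
          show Even (dd (a n + i))
          rw [e1, even_iff_two_dvd]
          exact Nat.dvd_sub (e5.trans e4) (e5.trans e3)
        · have e1 := hps r le_rfl
          have e2 : psum (fun i : Fin r => dd (a n + i)) r = ∑ i : Fin r, dd (a n + i) := by
            unfold psum
            congr 1
            ext i
            simp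
          have e3 := hfB r le_rfl
          rw [e2] at e1
          show ∑ i : Fin r, dd (a n + i) ≤ B
          omega
      apply hHgood (hf 0) h0H _ hg
      intro y hy
      unfold blk at hy
      rw [Finset.mem_image] at hy
      obtain ⟨j, hj, rfl⟩ := hy
      rw [Finset.mem_range] at hj
      rw [← hps j (by omega)]
      exact hfH j (by omega)
    · simp only [ha] at *
      omega
    · simp only [ha] at *
      omega
  have hfib : #𝒩 ≤ L * #Bad := by
    have h1 : 𝒩 ⊆ Bad.biUnion (fun m => Ico (Nat.nth Nat.Prime m - L) (Nat.nth Nat.Prime m)) := by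
      intro n hn
      obtain ⟨h2, h3, h4⟩ := hmap n hn
      rw [Finset.mem_biUnion]
      refine ⟨a n, h2, ?_⟩
      rw [Finset.mem_Ico]
      omega
    refine (Finset.card_le_card h1).trans (Finset.card_biUnion_le.trans ?_)
    calc ∑ m ∈ Bad, #(Ico (Nat.nth Nat.Prime m - L) (Nat.nth Nat.Prime m)) ≤ ∑ m ∈ Bad, L := by
          apply Finset.sum_le_sum
          intro m _
          rw [Nat.card_Ico]
          omega
      _ = L * #Bad := by rw [Finset.sum_const, smul_eq_mul, mul_comm]
  calc (#𝒩 : ℝ) ≤ ((L * #Bad : ℕ) : ℝ) := by exact_mod_cast hfib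
    _ = L * #Bad := by push_cast; ring
    _ ≤ L * ((B : ℝ) ^ r * A) := mul_le_mul_of_nonneg_left hcardBad (Nat.cast_nonneg L)

/-- **Blocks of consecutive gaps.** -/
theorem gap_blocks (r : ℕ) : ∃ δ : ℝ, 0 < δ ∧ ∀ C : ℝ, 0 < C → ∃ c : ℝ, 0 < c ∧ ∀ᶠ N : ℕ in atTop,
    δ * (C * Real.log N) ^ r ≤
      (#(goodBlocks r N ⌊C * Real.log N⌋₊ (c * (N / Real.log N ^ r))) : ℝ) := by
  classical
  obtain ⟨k, hrk, hmaster⟩ := master (r + 1) (by omega)
  set f : ℕ := k.factorial with hf
  have hfpos : 0 < f := Nat.factorial_pos k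
  have hf0 : (0 : ℝ) < f := by exact_mod_cast hfpos
  set δ : ℝ := 1 / (2 * (2 * (f : ℝ)) ^ r * 2 ^ k * f) with hδ
  have hδ0 : 0 < δ := by positivity
  refine ⟨δ, hδ0, fun C hC => ?_⟩
  set c0 : ℝ := (C / (8 * f)) ^ k / (2 * f) with hc0
  have hc00 : 0 < c0 := by positivity
  obtain ⟨c, hc, hev⟩ := hmaster C c0 hC hc00
  obtain ⟨c1, hc1, hcheb⟩ := cheb_index
  set c2 : ℝ := c * c1 / (8 * C ^ (r + 1)) with hc2
  have hc20 : 0 < c2 := by positivity
  refine ⟨c2, hc20, ?_⟩
  -- the parameter `ℓ`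
  have hlog : Tendsto (fun N : ℕ => Real.log N) atTop atTop :=
    Real.tendsto_log_atTop.comp tendsto_natCast_atTop_atTop
  have hlin : Tendsto (fun N : ℕ => c1 / 2 * (N : ℝ)) atTop atTop :=
    Tendsto.const_mul_atTop (by positivity) tendsto_natCast_atTop_atTop
  have hprod : Tendsto (fun N : ℕ => c1 / 2 * (N : ℝ) * Real.log N) atTop atTop :=
    hlin.atTop_mul_atTop₀ hlog
  have hℓt : Tendsto (fun N : ℕ => Real.log (c1 / 2 * (N : ℝ) * Real.log N)) atTop atTop :=
    Real.tendsto_log_atTop.comp hprod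
  have hexpbig : ∀ᶠ ℓ : ℝ in atTop, C * ℓ ≤ Real.exp ℓ := by
    have h1 : Tendsto (fun ℓ : ℝ => ℓ ^ 1 * Real.exp (-ℓ)) atTop (𝓝 0) :=
      Real.tendsto_pow_mul_exp_neg_atTop_nhds_zero 1
    have h2 := h1.eventually (gt_mem_nhds (show (0 : ℝ) < 1 / C by positivity))
    filter_upwards [h2] with ℓ hℓ
    rw [pow_one, Real.exp_neg, ← div_eq_mul_inv, div_lt_div_iff₀ (Real.exp_pos _) hC] at hℓ
    linarith
  have hlogN : ∀ᶠ N : ℕ in atTop, c1 / 2 * Real.log N ≤ N := by
    have h1 : Tendsto (fun x : ℝ => x ^ 1 * Real.exp (-x)) atTop (𝓝 0) :=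
      Real.tendsto_pow_mul_exp_neg_atTop_nhds_zero 1
    have h2 := (h1.comp hlog).eventually (gt_mem_nhds (show (0 : ℝ) < 1 / (c1 / 2) by positivity))
    filter_upwards [h2, eventually_ge_atTop 1] with N hN hN1
    have hN0 : (0 : ℝ) < N := by exact_mod_cast hN1
    simp only [Function.comp, pow_one] at hN
    rw [Real.exp_neg, ← div_eq_mul_inv, Real.exp_log hN0,
      div_lt_div_iff₀ hN0 (by positivity)] at hN
    linarith
  filter_upwards [hℓt.eventually hev, hcheb, hℓt.eventually hexpbig, hlogN,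
    hlog.eventually (eventually_ge_atTop (2 / c1)), hlog.eventually (eventually_ge_atTop ((2 * f * (2 * k + 2)) / C)),
    hlog.eventually (eventually_ge_atTop (1 : ℝ)), eventually_ge_atTop 3] with N hmas hcb hCℓ hlN hl1 hl2 hl3 hN3
  by_contra hcon
  push Not at hcon
  set ℓ := Real.log (c1 / 2 * (N : ℝ) * Real.log N) with hℓ
  set lN := Real.log (N : ℝ) with hlNdef
  set B := ⌊C * lN⌋₊ with hB
  set L := ⌊C * ℓ⌋₊ with hL
  set A : ℝ := c2 * (N / lN ^ r) with hA
  set T := goodBlocks r N B A with hT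
  have hN0 : (0 : ℝ) < N := by
    have : (3 : ℝ) ≤ N := by exact_mod_cast hN3
    linarith
  have hlN0 : 0 < lN := by linarith
  have hxpos : 0 < c1 / 2 * (N : ℝ) * lN := by positivity
  have hexp : Real.exp ℓ = c1 / 2 * (N : ℝ) * lN := Real.exp_log hxpos
  have hA0 : 0 ≤ A := by positivity
  -- `log N ≤ ℓ ≤ 2 log N`
  have hℓge : lN ≤ ℓ := by
    rw [hℓ, hlNdef]
    apply Real.log_le_log hN0
    have h1 : 1 ≤ c1 / 2 * lN := by
      rw [div_le_iff₀ hc1] at hl1
      linarith
    nlinarith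
  have hℓle : ℓ ≤ 2 * lN := by
    have h1 : c1 / 2 * (N : ℝ) * lN ≤ (N : ℝ) ^ 2 := by nlinarith
    have h2 := Real.log_le_log hxpos h1
    rw [Real.log_pow] at h2
    push_cast at h2
    exact h2
  have hBL : B ≤ L := Nat.floor_le_floor (mul_le_mul_of_nonneg_left hℓge hC.le)
  have hBle : (B : ℝ) ≤ C * lN := Nat.floor_le (by positivity)
  have hLle : (L : ℝ) ≤ C * ℓ := Nat.floor_le (by
    have : 0 ≤ ℓ := hlN0.le.trans hℓge
    positivity)
  -- the multiples of `k!`
  set S := (Icc 1 B).filter (fun h => f ∣ h) with hS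
  have hScard : #S = B / f := by
    rw [hS, ← Nat.Ioc_filter_dvd_card_eq_div]
    congr 1
  have hs1 : C * lN / (2 * f) ≤ (#S : ℝ) := by
    rw [hScard]
    have h1 : C * lN - 1 < B := by
      have := Nat.lt_floor_add_one (C * lN)
      linarith
    have h2 : (B : ℝ) / f - 1 < ((B / f : ℕ) : ℝ) := by
      have h3 : B < f * (B / f) + f := by
        have := Nat.div_add_mod B f
        have := Nat.mod_lt B hfpos
        omega
      have h4 : (B : ℝ) < f * ((B / f : ℕ) : ℝ) + f := by exact_mod_cast h3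
      rw [sub_lt_iff_lt_add, div_lt_iff₀ hf0]
      linarith
    have h3 : C * lN / (2 * f) ≤ (C * lN - 1) / f - 1 := by
      rw [div_le_iff₀ (by positivity)]
      have h4 : ((C * lN - 1) / f - 1) * (2 * f) = 2 * (C * lN - 1) - 2 * f := by
        field_simp
      rw [h4]
      rw [div_le_iff₀ hC] at hl2
      have h5 : (1 : ℝ) ≤ f := by exact_mod_cast hfpos
      have h6 : (0 : ℝ) ≤ k := Nat.cast_nonneg k
      nlinarith
    have h4 : (C * lN - 1) / f ≤ (B : ℝ) / f := div_le_div_of_nonneg_right h1.le hf0.le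
    linarith
  have hs2 : 2 * k ≤ #S := by
    have h1 : (2 * k : ℝ) ≤ C * lN / (2 * f) := by
      rw [le_div_iff₀ (by positivity)]
      rw [div_le_iff₀ hC] at hl2
      nlinarith
    have : ((2 * k : ℕ) : ℝ) ≤ #S := by push_cast; linarith
    exact_mod_cast this
  -- good blocks in `S`
  set G := (S ×ˢ T).image (fun x => blk x.1 x.2) with hG
  have hTpos : ∀ t ∈ T, ∀ i, 1 ≤ t i := by
    intro t ht i
    rw [hT] at ht
    unfold goodBlocks at ht
    exact (Finset.mem_Icc.mp (Fintype.mem_piFinset.mp (Finset.mem_filter.mp ht).1 i)).1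
  have hGcard : ∀ A ∈ G, #A = r + 1 := by
    intro A hA
    rw [hG, Finset.mem_image] at hA
    obtain ⟨⟨a, t⟩, hat, rfl⟩ := hA
    rw [Finset.mem_product] at hat
    exact card_blk a t (hTpos t hat.2)
  have hclean := card_clean S k r G hGcard
  set F := (S.powersetCard k).filter (fun H => ∀ A ∈ G, ¬ A ⊆ H) with hF
  have hGle : #G ≤ #S * #T := by
    rw [hG, ← Finset.card_product]
    exact Finset.card_image_le
  -- lower bound for `#F`
  have hs0 : (0 : ℝ) < #S := by
    have h1 : 0 < C * lN / (2 * f) := by positivity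
    linarith
  have hchoose : ((#S : ℝ) / 2) ^ k / f ≤ ((#S).choose k : ℝ) := by
    have h1 := Nat.pow_le_choose (α := ℝ) k #S
    refine le_trans ?_ h1
    apply div_le_div_of_nonneg_right _ hf0.le
    apply pow_le_pow_left₀ (by positivity)
    have h2 : #S ≤ 2 * (#S + 1 - k) := by omega
    have h3 : (#S : ℝ) ≤ 2 * ((#S + 1 - k : ℕ) : ℝ) := by exact_mod_cast h2
    linarith
  have hbadle : ((#G * #S ^ (k - (r + 1)) : ℕ) : ℝ) ≤ 1 / 2 * (((#S : ℝ) / 2) ^ k / f) := by
    have h1 : ((#G * #S ^ (k - (r + 1)) : ℕ) : ℝ) ≤ (#S : ℝ) * #T * (#S : ℝ) ^ (k - (r + 1)) := by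
      have : #G * #S ^ (k - (r + 1)) ≤ #S * #T * #S ^ (k - (r + 1)) := Nat.mul_le_mul_right _ hGle
      exact_mod_cast this
    have h2 : (#T : ℝ) ≤ δ * (2 * f * #S) ^ r := by
      refine hcon.le.trans ?_
      apply mul_le_mul_of_nonneg_left _ hδ0.le
      apply pow_le_pow_left₀ (by positivity)
      rw [div_le_iff₀ (by positivity)] at hs1
      linarith
    have h3 : (#S : ℝ) * (#S : ℝ) ^ (k - (r + 1)) * (#S : ℝ) ^ r = (#S : ℝ) ^ k := by
      rw [← pow_succ', ← pow_add]
      congr 1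
      omega
    calc ((#G * #S ^ (k - (r + 1)) : ℕ) : ℝ) ≤ (#S : ℝ) * #T * (#S : ℝ) ^ (k - (r + 1)) := h1
      _ = (#S : ℝ) * (#S : ℝ) ^ (k - (r + 1)) * #T := by ring
      _ ≤ (#S : ℝ) * (#S : ℝ) ^ (k - (r + 1)) * (δ * (2 * f * #S) ^ r) :=
          mul_le_mul_of_nonneg_left h2 (by positivity)
      _ = δ * (2 * f) ^ r * ((#S : ℝ) * (#S : ℝ) ^ (k - (r + 1)) * (#S : ℝ) ^ r) := by
          rw [mul_pow]; ring
      _ = 1 / 2 * (((#S : ℝ) / 2) ^ k / f) := by
          rw [h3, hδ, div_pow]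
          field_simp
  have hFge : c0 * ℓ ^ k ≤ (#F : ℝ) := by
    have h1 : ((#S).choose k : ℝ) ≤ #F + ((#G * #S ^ (k - (r + 1)) : ℕ) : ℝ) := by exact_mod_cast hclean
    have h2 : 1 / 2 * (((#S : ℝ) / 2) ^ k / f) ≤ (#F : ℝ) := by linarith
    refine le_trans ?_ h2
    have h3 : C / (8 * f) * ℓ ≤ (#S : ℝ) / 2 := by
      have h4 : C / (8 * f) * ℓ ≤ C / (8 * f) * (2 * lN) := mul_le_mul_of_nonneg_left hℓle (by positivity)
      have h5 : C / (8 * f) * (2 * lN) = C * lN / (2 * f) / 2 := by field_simp; ring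
      linarith
    have hℓ0 : 0 ≤ ℓ := hlN0.le.trans hℓge
    have h4 := pow_le_pow_left₀ (by positivity) h3 k
    rw [mul_pow] at h4
    rw [hc0]
    calc (C / (8 * f)) ^ k / (2 * f) * ℓ ^ k = (C / (8 * f)) ^ k * ℓ ^ k / (2 * f) := by ring
      _ ≤ ((#S : ℝ) / 2) ^ k / (2 * f) := div_le_div_of_nonneg_right h4 (by positivity)
      _ = _ := by field_simp
  -- the master theorem
  have hFprop : ∀ H ∈ F, #H = k ∧ H ⊆ Icc 1 ⌊C * ℓ⌋₊ ∧ ∀ h ∈ H, k.factorial ∣ h := by
    intro H hH
    have h1 := Finset.mem_powersetCard.mp (Finset.mem_filter.mp hH).1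
    refine ⟨h1.2, ?_, fun h hh => (Finset.mem_filter.mp (h1.1 hh)).2⟩
    intro h hh
    have h2 := Finset.mem_Icc.mp (Finset.mem_filter.mp (h1.1 hh)).1
    rw [Finset.mem_Icc]
    exact ⟨h2.1, h2.2.trans hBL⟩
  have hmas2 := hmas F hFprop hFge
  set 𝒩 := (Ioc 0 ⌊Real.exp ℓ⌋₊).filter (fun n => ∃ H ∈ F,
        r + 1 ≤ #(H.filter (fun h => (n + h).Prime)) ∧
          ∀ h ∈ Icc 1 ⌊C * ℓ⌋₊, (n + h).Prime → h ∈ H) with h𝒩
  have hcore := blocks_core r N B k ⌊c1 * N * lN⌋₊ (by omega) A hA0 L hBL 𝒩 (by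
      intro n hn
      obtain ⟨H, hH, h1, h2⟩ := (Finset.mem_filter.mp hn).2
      have h3 := Finset.mem_filter.mp hH
      have h4 := Finset.mem_powersetCard.mp h3.1
      refine ⟨H, ⟨h4.1, fun a ha t ht hsub => ?_⟩, h1, h2⟩
      refine h3.2 (blk a t) ?_ hsub
      rw [hG, Finset.mem_image]
      exact ⟨(a, t), Finset.mem_product.mpr ⟨h4.1 ha, ht⟩, rfl⟩) (by
      intro n hn
      have h1 := (Finset.mem_Ioc.mp (Finset.mem_filter.mp hn).1).2
      have h2 : (n : ℝ) ≤ Real.exp ℓ := (Nat.le_floor_iff (Real.exp_pos _).le).mp h1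
      apply Nat.le_floor
      push_cast
      linarith) hcb
  -- contradiction
  have h1 : (#𝒩 : ℝ) ≤ c * c1 / 4 * (N * lN) := by
    refine hcore.trans ?_
    have h2 : (L : ℝ) ≤ 2 * C * lN := by nlinarith
    have h3 : (B : ℝ) ^ r ≤ (C * lN) ^ r := pow_le_pow_left₀ (Nat.cast_nonneg B) hBle r
    calc (L : ℝ) * ((B : ℝ) ^ r * A) ≤ (2 * C * lN) * ((C * lN) ^ r * A) := by
          apply mul_le_mul h2 (mul_le_mul_of_nonneg_right h3 hA0) (by positivity) (by positivity)
      _ = c * c1 / 4 * (N * lN) := by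
          rw [hA, hc2, mul_pow, pow_succ]
          field_simp
          ring
  rw [hexp] at hmas2
  have h2 : 0 < c * c1 * (N * lN) := by positivity
  nlinarith [h1, hmas2, h2]

end Pool.Agent.H16.PP
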